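import Pool.Agent.AutGeo.Defs

set_option autoImplicit false

/-!
# Part B by a simple combing: integer arithmetic of one plane (helper80)
-/

namespace AutGeo.Cb

/-- cosine of `a` quarter turns -/
def cs (a : ZMod 4) : ℤ := if a = 0 then 1 else if a = 2 then -1 else 0
/-- sine of `a` quarter turns -/
def sn (a : ZMod 4) : ℤ := if a = 1 then 1 else if a = 3 then -1 else 0

theorem cs_zero : cs 0 = 1 := rfl
theorem sn_zero : sn 0 = 0 := rfl
theorem cs_sn (a : ZMod 4) :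
    (cs a = 1 ∧ sn a = 0) ∨ (cs a = 0 ∧ sn a = 1) ∨ (cs a = -1 ∧ sn a = 0) ∨
      (cs a = 0 ∧ sn a = -1) := by
  revert a; decide

theorem rot_eq (a : ZMod 4) (v : ℤ × ℤ) :
    rot a v = (cs a * v.1 - sn a * v.2, sn a * v.1 + cs a * v.2) := by
  have h1 : cs 1 = 0 := rfl
  have h2 : cs 2 = -1 := rfl
  have h3 : cs 3 = 0 := rfl
  have k1 : sn 1 = 1 := rfl
  have k2 : sn 2 = 0 := rfl
  have k3 : sn 3 = -1 := rfl
  rcases zmod4_cases a with rfl | rfl | rfl | rfl <;>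
    simp [rot_zero, rot_one, rot_two, rot_three, cs_zero, sn_zero, h1, h2, h3, k1, k2, k3]

theorem mul_x (k l : KK) : (k * l).v.1 = k.v.1 + (cs k.a * l.v.1 - sn k.a * l.v.2) := by
  rw [KK.mul_v, rot_eq]; rfl
theorem mul_y (k l : KK) : (k * l).v.2 = k.v.2 + (sn k.a * l.v.1 + cs k.a * l.v.2) := by
  rw [KK.mul_v, rot_eq]; rfl

/-- translation by `(x, y)` -/
def tr (x y : ℤ) : KK := ⟨(x, y), 0⟩

theorem tr_x (x y : ℤ) : (tr x y).v.1 = x := rfl
theorem tr_y (x y : ℤ) : (tr x y).v.2 = y := rfl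
theorem tr_a (x y : ℤ) : (tr x y).a = 0 := rfl

theorem tr_mul (x y x' y' : ℤ) : tr x y * tr x' y' = tr (x + x') (y + y') := by
  ext <;> simp [tr, rot_zero]

/-- `w ^ n` -/
def wp (n : ℤ) : KK := tr (2 * n) (2 * n)
/-- `u ^ n` -/
def up (n : ℤ) : KK := tr (3 * n) 0

/-- Entry direction: after a letter `t ^ e` one enters along `ent e` (`w` if `e = 1`, else `u`).
The exit direction before a letter `t ^ e` is `ent (-e)`. -/
def ent (e : ℤˣ) (n : ℤ) : KK := if e = 1 then wp n else up n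

@[simp] theorem ent_one (n : ℤ) : ent 1 n = wp n := rfl
@[simp] theorem ent_neg_one (n : ℤ) : ent (-1) n = up n := rfl

theorem ent_eq (e : ℤˣ) (n : ℤ) : ent e n = vec (n • T' e) := by
  rcases Int.units_eq_one_or e with rfl | rfl
  · ext <;> simp [wp, tr, vec, mul_comm]
  · ext <;> simp [up, tr, vec, mul_comm]

theorem ent_add (e : ℤˣ) (m n : ℤ) : ent e m * ent e n = ent e (m + n) := by
  rw [ent_eq, ent_eq, ent_eq, vec_mul, add_smul]

theorem ent_zero (e : ℤˣ) : ent e 0 = 1 := by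
  rw [ent_eq, zero_smul, vec_zero]

theorem ent_inv (e : ℤˣ) (n : ℤ) : (ent e n)⁻¹ = ent e (-n) := by
  rw [inv_eq_iff_mul_eq_one, ent_add, add_neg_cancel, ent_zero]

theorem te_mul_ent (e : ℤˣ) (n : ℤ) : te e * of (ent e n) = of (ent (-e) n) * te e := by
  rw [ent_eq, ent_eq, T'_neg, vecT_te]

theorem toSubgroup_mem (e : ℤˣ) (k : KK) :
    k ∈ HNNExtension.toSubgroup (line (2, 2)) (line (3, 0)) e ↔ ∃ n : ℤ, k = ent e n := by
  rcases Int.units_eq_one_or e with rfl | rfl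
  · simp only [ent_eq]; exact Iff.rfl
  · simp only [ent_eq]; exact Iff.rfl

/-- coordinate across the entry line direction (`sg e (ent e n) = DD e * n`) -/
def sg (e : ℤˣ) (x y : ℤ) : ℤ := if e = 1 then x + y else x
/-- the width of the strip -/
def DD (e : ℤˣ) : ℤ := if e = 1 then 4 else 3
/-- `L`-value of the ray vector -/
def Ld (e : ℤˣ) : ℤ := if e = 1 then 2 else 1
/-- ray vector, first coordinate -/
def dx (e : ℤˣ) : ℤ := if e = 1 then 1 else 0
/-- ray vector, second coordinate -/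
def dy (e : ℤˣ) : ℤ := if e = 1 then -1 else 1

/-- The linear functional that measures the length of a ray; it depends on the exit. -/
def LL (e : ℤˣ) (a : ZMod 4) (o : Option ℤˣ) (x y : ℤ) : ℤ :=
  if e = 1 then
    (if o = some 1 then (if sn a = 0 then 4 * x + 2 * y else -2 * x - 4 * y) else x - y)
  else
    (if o = some (-1) then (if sn a = 0 then 2 * x + y else y - 2 * x) else y)

/-- truncated division -/
def kdiv (l m : ℤ) : ℤ := if 0 ≤ l then l / m else -(-l / m)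

/-- signed number of ray letters -/
def nk (e : ℤˣ) (s : KK) (o : Option ℤˣ) : ℤ := kdiv (LL e s.a o s.v.1 s.v.2) (Ld e)

/-- the strip: representatives of `⟨ent e⟩ \ K` -/
def Tr (e : ℤˣ) : Set KK := {s | 0 ≤ sg e s.v.1 s.v.2 ∧ sg e s.v.1 s.v.2 < DD e}

/-- the number of the strip -/
def qq (e : ℤˣ) (s : KK) : ℤ := sg e s.v.1 s.v.2 / DD e

/-- the representative -/
def re (e : ℤˣ) (s : KK) : KK := ent e (-qq e s) * s

/-- ray vector -/
def dK (e : ℤˣ) (n : ℤ) : KK := tr (n * dx e) (n * dy e)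

theorem sg_ent_mul (e : ℤˣ) (n : ℤ) (s : KK) :
    sg e (ent e n * s).v.1 (ent e n * s).v.2 = DD e * n + sg e s.v.1 s.v.2 := by
  rcases Int.units_eq_one_or e with rfl | rfl
  · simp only [sg, DD, ent_one, wp, mul_x, mul_y, tr_x, tr_y, tr_a, cs_zero, sn_zero, if_true]
    ring
  · simp only [sg, DD, ent_neg_one, up, mul_x, mul_y, tr_x, tr_y, tr_a, cs_zero, sn_zero,
      show ((-1 : ℤˣ) = 1) = False from by simp, if_false]
    ring

theorem re_mem (e : ℤˣ) (s : KK) : re e s ∈ Tr e := by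
  have h := sg_ent_mul e (-qq e s) s
  simp only [Tr, Set.mem_ofPred_eq, re, h]
  rcases Int.units_eq_one_or e with rfl | rfl
  · simp only [qq, sg, DD, if_true]; omega
  · simp only [qq, sg, DD, show ((-1 : ℤˣ) = 1) = False from by simp, if_false]; omega

theorem ent_mul_re (e : ℤˣ) (s : KK) : ent e (qq e s) * re e s = s := by
  rw [re, ← mul_assoc, ent_add, add_neg_cancel, ent_zero, one_mul]

theorem qq_eq {e : ℤˣ} {s s₁ : KK} {q : ℤ} (hs : s₁ ∈ Tr e) (h : s = ent e q * s₁) :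
    q = qq e s ∧ s₁ = re e s := by
  have h1 := sg_ent_mul e q s₁
  rw [← h] at h1
  have h2 : q = qq e s := by
    simp only [Tr, Set.mem_ofPred_eq] at hs
    rcases Int.units_eq_one_or e with rfl | rfl
    · simp only [qq, DD, if_true] at *; omega
    · simp only [qq, DD, show ((-1 : ℤˣ) = 1) = False from by simp, if_false] at *; omega
  refine ⟨h2, ?_⟩
  rw [re, h, ← mul_assoc, ent_add, ← h, ← h2, neg_add_cancel, ent_zero, one_mul]

set_option maxHeartbeats 4000000 in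
/-- The key fact on one plane. -/
theorem step_key (e o : ℤˣ) (s : KK) (hs : s ∈ Tr e) (j : ℤ) (hj : -1 ≤ j ∧ j ≤ 1) :
    (-1 ≤ qq e (s * ent (-o) j) ∧ qq e (s * ent (-o) j) ≤ 1) ∧
    (qq e (s * ent (-o) j) ≠ 0 → nk e (re e (s * ent (-o) j)) (some o) = nk e s (some o)) ∧
    (nk e (re e (s * ent (-o) j)) (some o) - nk e s (some o) ≤ 20 ∧
      nk e s (some o) - nk e (re e (s * ent (-o) j)) (some o) ≤ 20) := by
  have hj' : j = -1 ∨ j = 0 ∨ j = 1 := by omega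
  obtain ⟨⟨x, y⟩, a⟩ := s
  simp only [Tr, Set.mem_ofPred_eq] at hs
  rcases Int.units_eq_one_or e with rfl | rfl <;> rcases Int.units_eq_one_or o with rfl | rfl <;>
    rcases cs_sn a with ⟨h1, h2⟩ | ⟨h1, h2⟩ | ⟨h1, h2⟩ | ⟨h1, h2⟩ <;>
    rcases hj' with rfl | rfl | rfl <;>
    · simp only [re, qq, nk, kdiv, LL, Ld, sg, DD, ent, wp, up, mul_x, mul_y, KK.mul_a, tr_x,
        tr_y, tr_a, h1, h2, add_zero, cs_zero, sn_zero, neg_neg, Option.some.injEq,
        show ((-1 : ℤˣ) = 1) = False from by simp, show ((1 : ℤˣ) = -1) = False from by simp,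
        show ((-1 : ℤ) = 0) = False from by simp, show ((1 : ℤ) = 0) = False from by simp,
        if_true, if_false, zero_add] at *
      split_ifs <;> omega

/-- lengths for different exits from the same element -/
theorem nk_exit (e : ℤˣ) (o o' : Option ℤˣ) (s : KK) (hs : s ∈ Tr e) :
    nk e s o - nk e s o' ≤ 20 := by
  obtain ⟨⟨x, y⟩, a⟩ := s
  simp only [Tr, Set.mem_ofPred_eq] at hs
  rcases Int.units_eq_one_or e with rfl | rfl <;>
    · simp only [nk, kdiv, LL, Ld, sg, DD, if_true,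
        show ((-1 : ℤˣ) = 1) = False from by simp, if_false] at *
      split_ifs <;> omega

/-- right multiplication by a bounded element of `K` -/
theorem step_box (e : ℤˣ) (s k : KK) (hs : s ∈ Tr e)
    (hk : -8 ≤ k.v.1 ∧ k.v.1 ≤ 8 ∧ -8 ≤ k.v.2 ∧ k.v.2 ≤ 8) :
    (-7 ≤ qq e (s * k) ∧ qq e (s * k) ≤ 7) ∧
    (nk e (re e (s * k)) none - nk e s none ≤ 50 ∧
      nk e s none - nk e (re e (s * k)) none ≤ 50) := by
  obtain ⟨⟨x, y⟩, a⟩ := s
  obtain ⟨⟨x', y'⟩, a'⟩ := k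
  simp only [Tr, Set.mem_ofPred_eq] at hs
  rcases Int.units_eq_one_or e with rfl | rfl <;>
    rcases cs_sn a with ⟨h1, h2⟩ | ⟨h1, h2⟩ | ⟨h1, h2⟩ | ⟨h1, h2⟩ <;>
    · simp only [re, qq, nk, kdiv, LL, Ld, sg, DD, ent, wp, up, mul_x, mul_y, KK.mul_a, tr_x,
        tr_y, tr_a, h1, h2, cs_zero, sn_zero,
        show ((-1 : ℤˣ) = 1) = False from by simp, reduceCtorEq,
        if_true, if_false, zero_add] at *
      split_ifs <;> omega

theorem dK_add (e : ℤˣ) (m n : ℤ) : dK e m * dK e n = dK e (m + n) := by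
  simp only [dK, tr_mul]; congr 1 <;> ring

theorem dK_zero (e : ℤˣ) : dK e 0 = 1 := by
  simp only [dK, zero_mul]; rfl

theorem dK_inv (e : ℤˣ) (n : ℤ) : (dK e n)⁻¹ = dK e (-n) := by
  rw [inv_eq_iff_mul_eq_one, dK_add, add_neg_cancel, dK_zero]

theorem ent_dK_comm (e : ℤˣ) (q n : ℤ) : ent e q * dK e n = dK e n * ent e q := by
  rcases Int.units_eq_one_or e with rfl | rfl
  · simp only [ent_one, wp, dK, tr_mul]; congr 1 <;> ring
  · simp only [ent_neg_one, up, dK, tr_mul]; congr 1 <;> ring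

/-- the last letter of a segment -/
def rem (e : ℤˣ) (s : KK) (o : Option ℤˣ) : KK := dK e (-nk e s o) * s

theorem dK_mul_rem (e : ℤˣ) (s : KK) (o : Option ℤˣ) : dK e (nk e s o) * rem e s o = s := by
  rw [rem, ← mul_assoc, dK_add, add_neg_cancel, dK_zero, one_mul]

/-- The set of last letters. -/
def Fi (e : ℤˣ) (o : Option ℤˣ) : Set KK :=
  {r | 0 ≤ sg e r.v.1 r.v.2 ∧ sg e r.v.1 r.v.2 < DD e ∧ -Ld e < LL e r.a o r.v.1 r.v.2 ∧
    LL e r.a o r.v.1 r.v.2 < Ld e}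

theorem Fi_box {e : ℤˣ} {o : Option ℤˣ} {r : KK} (h : r ∈ Fi e o) :
    -8 ≤ r.v.1 ∧ r.v.1 ≤ 8 ∧ -8 ≤ r.v.2 ∧ r.v.2 ≤ 8 := by
  obtain ⟨⟨x, y⟩, a⟩ := r
  simp only [Fi, Set.mem_ofPred_eq] at h
  rcases Int.units_eq_one_or e with rfl | rfl <;>
    · simp only [LL, Ld, sg, DD, if_true,
        show ((-1 : ℤˣ) = 1) = False from by simp, if_false] at *
      split_ifs at h <;> omega

theorem rem_Fi (e : ℤˣ) (s : KK) (o : Option ℤˣ) (hs : s ∈ Tr e) :
    rem e s o ∈ Fi e o ∧ (0 < nk e s o → 0 ≤ LL e (rem e s o).a o (rem e s o).v.1 (rem e s o).v.2) ∧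
      (nk e s o < 0 → LL e (rem e s o).a o (rem e s o).v.1 (rem e s o).v.2 ≤ 0) := by
  obtain ⟨⟨x, y⟩, a⟩ := s
  simp only [Tr, Set.mem_ofPred_eq] at hs
  rcases Int.units_eq_one_or e with rfl | rfl <;>
    · simp only [rem, Fi, dK, dx, dy, Set.mem_ofPred_eq, nk, kdiv, LL, Ld, sg, DD, mul_x, mul_y,
        KK.mul_a, tr_x, tr_y, tr_a, cs_zero, sn_zero, zero_add, if_true,
        show ((-1 : ℤˣ) = 1) = False from by simp, if_false] at *
      split_ifs <;> omega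

theorem nk_of_Fi (e : ℤˣ) (o : Option ℤˣ) (n : ℤ) (r : KK) (hr : r ∈ Fi e o)
    (h1 : 0 < n → 0 ≤ LL e r.a o r.v.1 r.v.2) (h2 : n < 0 → LL e r.a o r.v.1 r.v.2 ≤ 0) :
    dK e n * r ∈ Tr e ∧ nk e (dK e n * r) o = n := by
  obtain ⟨⟨x, y⟩, a⟩ := r
  rcases Int.units_eq_one_or e with rfl | rfl <;>
    · simp only [Fi, Tr, dK, dx, dy, Set.mem_ofPred_eq, nk, kdiv, LL, Ld, sg, DD, mul_x, mul_y,
        KK.mul_a, tr_x, tr_y, tr_a, cs_zero, sn_zero, zero_add, if_true,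
        show ((-1 : ℤˣ) = 1) = False from by simp, if_false] at *
      split_ifs at * <;> omega

theorem rem_of_Fi (e : ℤˣ) (o : Option ℤˣ) (n : ℤ) (r : KK) (hr : r ∈ Fi e o)
    (h1 : 0 < n → 0 ≤ LL e r.a o r.v.1 r.v.2) (h2 : n < 0 → LL e r.a o r.v.1 r.v.2 ≤ 0) :
    rem e (dK e n * r) o = r := by
  rw [rem, (nk_of_Fi e o n r hr h1 h2).2, ← mul_assoc, dK_add, neg_add_cancel, dK_zero, one_mul]

end AutGeo.Cb
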