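import Pool.Agent.AutGeo.C.Nfa

set_option autoImplicit false

/-!
# Part B by a simple combing: `GG` is automatic (helper80)
-/

namespace AutGeo.Cb

theorem BL_finite : BL.Finite := by
  let f : (ℤ × ℤ) × (ZMod 4 × Option ℤˣ) → Lt := fun p => (⟨p.1, p.2.1⟩, p.2.2)
  refine Set.Finite.subset (((((Set.finite_Icc (-8 : ℤ) 8).prod (Set.finite_Icc (-8 : ℤ) 8)).prod
    (Set.finite_univ (α := ZMod 4 × Option ℤˣ)))).image f) ?_
  rintro ⟨⟨⟨x, y⟩, a⟩, o⟩ ⟨h1, h2, h3, h4⟩
  exact ⟨((x, y), (a, o)), ⟨⟨⟨h1, h2⟩, ⟨h3, h4⟩⟩, trivial⟩, rfl⟩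

/-- the generating set -/
noncomputable def X : Finset GG := (BL_finite.image lv).toFinset

theorem mem_X {g : GG} : g ∈ X ↔ ∃ y ∈ BL, lv y = g := by
  simp [X]

/-- letters of the frozen statement -/
abbrev Al : Type := {x // x ∈ X} × Bool

/-- values of words of the frozen statement -/
noncomputable def wv (w : List Al) : GG :=
  (w.map (fun p : {x // x ∈ X} × Bool => if p.2 = true then p.1.1 else p.1.1⁻¹)).prod

/-- the letter as a letter of the frozen statement -/
noncomputable def li (y : Lt) (hy : y ∈ BL) : Al := (⟨lv y, mem_X.2 ⟨y, hy, rfl⟩⟩, true)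

/-- `w` codes `l` -/
def Codes (w : List Al) (l : List Lt) : Prop :=
  List.Forall₂ (fun p y => p.2 = true ∧ p.1.1 = lv y) w l

theorem Codes.val {w : List Al} {l : List Lt} (h : Codes w l) : wv w = val l := by
  induction h with
  | nil => rfl
  | cons h _ ih =>
    simp only [wv, Cb.val, List.map_cons, List.prod_cons] at ih ⊢
    rw [ih, if_pos h.1, h.2]

theorem Codes.take {w : List Al} {l : List Lt} (h : Codes w l) (n : ℕ) :
    Codes (w.take n) (l.take n) := List.forall₂_take n h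

/-- the automaton -/
def NN : NFA Al St where
  step q p := {q' | p.2 = true ∧ ∃ y ∈ BL, p.1.1 = lv y ∧ Stp q y q'}
  start := {St.s0}
  accept := {St.fi}

theorem eval_Rch (w : List Al) (q : St) (h : q ∈ NN.eval w) : ∃ l, Codes w l ∧ Rch q l := by
  induction w using List.reverseRecOn generalizing q with
  | nil =>
    rw [NFA.eval_nil] at h
    have h' : q = St.s0 := h
    rw [h']
    exact ⟨[], List.Forall₂.nil, Rch.nil⟩
  | append_singleton w p ih =>
    rw [NFA.eval_append_singleton, NFA.mem_stepSet] at h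
    obtain ⟨q0, hq0, hp, y, hy, hpy, hs⟩ := h
    obtain ⟨l, hl, hr⟩ := ih q0 hq0
    exact ⟨l ++ [y], List.rel_append hl (List.Forall₂.cons ⟨hp, hpy⟩ List.Forall₂.nil),
      Rch.snoc hr hy hs⟩

theorem Rch_eval {q : St} {l : List Lt} (h : Rch q l) : ∃ w, Codes w l ∧ q ∈ NN.eval w := by
  induction h with
  | nil => exact ⟨[], List.Forall₂.nil, by rw [NFA.eval_nil]; rfl⟩
  | @snoc q q' x l _ hx hs ih =>
    obtain ⟨w, hw, hq⟩ := ih
    refine ⟨w ++ [li x hx], List.rel_append hw (List.Forall₂.cons ⟨rfl, rfl⟩ List.Forall₂.nil), ?_⟩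
    rw [NFA.eval_append_singleton, NFA.mem_stepSet]
    exact ⟨q, hq, rfl, x, hx, rfl, hs⟩

theorem accept_iff (w : List Al) : NN.toDFA.eval w ∈ NN.toDFA.accept ↔ St.fi ∈ NN.eval w := by
  have h : w ∈ NN.toDFA.accepts ↔ w ∈ NN.accepts := by rw [NFA.toDFA_correct]
  constructor
  · intro h1
    have h2 : w ∈ NN.toDFA.accepts := h1
    rw [h, NFA.mem_accepts] at h2
    obtain ⟨s, hs, hs'⟩ := h2
    have : s = St.fi := hs
    rw [← this]; exact hs'
  · intro h1
    have h2 : w ∈ NN.toDFA.accepts := by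
      rw [h, NFA.mem_accepts]
      exact ⟨St.fi, rfl, h1⟩
    exact h2

theorem accepted {w : List Al} (h : NN.toDFA.eval w ∈ NN.toDFA.accept) :
    ∃ k₀ R, Good R ∧ Codes w (pre k₀ R none) := by
  obtain ⟨l, hl, hr⟩ := eval_Rch w St.fi ((accept_iff w).1 h)
  obtain ⟨⟨k₀, R, hR, rfl⟩, -⟩ := Rch_Inv hr
  exact ⟨k₀, R, hR, hl⟩

theorem WL_word {n : ℕ} {g : GG} (h : WL n g) : ∃ z : List Al, z.length ≤ n ∧ wv z = g := by
  obtain ⟨l, h1, h2, h3⟩ := h
  have key : ∀ l : List GG, (∀ x ∈ l, ∃ y ∈ BL, x = lv y ∨ x = (lv y)⁻¹) →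
      ∃ z : List Al, z.length = l.length ∧ wv z = l.prod := by
    intro l
    induction l with
    | nil => intro _; exact ⟨[], rfl, rfl⟩
    | cons x l ih =>
      intro hl
      obtain ⟨z, hz1, hz2⟩ := ih fun y hy => hl y (List.mem_cons_of_mem _ hy)
      obtain ⟨y, hy, hx⟩ := hl x List.mem_cons_self
      rcases hx with hx | hx
      · refine ⟨(⟨lv y, mem_X.2 ⟨y, hy, rfl⟩⟩, true) :: z, by simp [hz1], ?_⟩
        rw [List.prod_cons, ← hz2, hx]
        simp [wv]
      · refine ⟨(⟨lv y, mem_X.2 ⟨y, hy, rfl⟩⟩, false) :: z, by simp [hz1], ?_⟩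
        rw [List.prod_cons, ← hz2, hx]
        simp [wv]
  obtain ⟨z, hz1, hz2⟩ := key l h2
  exact ⟨z, by omega, by rw [hz2, h3]⟩

theorem wv_mem_closure (w : List Al) : wv w ∈ Subgroup.closure (X : Set GG) := by
  refine Subgroup.list_prod_mem _ ?_
  intro x hx
  rw [List.mem_map] at hx
  obtain ⟨p, -, rfl⟩ := hx
  split_ifs
  · exact Subgroup.subset_closure p.1.2
  · exact Subgroup.inv_mem _ (Subgroup.subset_closure p.1.2)

theorem surj (g : GG) : ∃ w : List Al, NN.toDFA.eval w ∈ NN.toDFA.accept ∧ wv w = g := by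
  obtain ⟨k₀, R, hR, hV⟩ := good_exists g
  obtain ⟨w, hw, hq⟩ := Rch_eval (Rch_pre k₀ R hR none (by simp))
  refine ⟨w, (accept_iff w).2 hq, ?_⟩
  rw [hw.val, pre_val, hV]
  simp [tO]

theorem fellow (u v : List Al) (hu : NN.toDFA.eval u ∈ NN.toDFA.accept)
    (hv : NN.toDFA.eval v ∈ NN.toDFA.accept)
    (hz : ∃ z : List Al, z.length ≤ 1 ∧ wv u * wv z = wv v) (t : ℕ) :
    ∃ z : List Al, z.length ≤ 700 ∧ wv (u.take t) * wv z = wv (v.take t) := by
  obtain ⟨k₀, R, hR, hc⟩ := accepted hu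
  obtain ⟨k₀', R', hR', hc'⟩ := accepted hv
  have h1 : wv u = V k₀ R := by rw [hc.val, pre_val]; simp [tO]
  have h2 : wv v = V k₀' R' := by rw [hc'.val, pre_val]; simp [tO]
  have hft : FT 700 (pre k₀ R none) (pre k₀' R' none) := by
    obtain ⟨z, hz1, hz2⟩ := hz
    rw [h1, h2] at hz2
    match z, hz1, hz2 with
    | [], _, hz2 =>
      have h3 : V k₀ R = V k₀' R' := by rw [← hz2]; simp [wv]
      obtain ⟨rfl, rfl⟩ := good_unique hR hR' h3
      exact FT_refl _ _
    | [(⟨x, hx⟩, b)], _, hz2 =>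
      obtain ⟨y, hy, rfl⟩ := mem_X.1 hx
      cases b
      · have h3 : V k₀ R = V k₀' R' * lv y := by rw [← hz2]; simp [wv]
        exact (nb_letter k₀' R' hR' k₀ R hR y hy h3).symm
      · have h3 : V k₀' R' = V k₀ R * lv y := by rw [← hz2]; simp [wv]
        exact nb_letter k₀ R hR k₀' R' hR' y hy h3
    | _ :: _ :: _, hz1, _ => simp at hz1
  obtain ⟨z, hz1, hz2⟩ := WL_word (hft t)
  refine ⟨z, hz1, ?_⟩
  rw [hz2, (hc.take t).val, (hc'.take t).val, mul_inv_cancel_left]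

/-- PART B: `GG` is automatic in the sense of the frozen statement. -/
theorem automatic : ∃ X : Finset GG, Subgroup.closure (X : Set GG) = ⊤ ∧
    ∃ σ : Type, ∃ _ : Fintype σ, ∃ M : DFA ({x // x ∈ X} × Bool) σ,
      (∀ g : GG, ∃ w : List ({x // x ∈ X} × Bool), M.eval w ∈ M.accept ∧
        (w.map (fun p : {x // x ∈ X} × Bool => if p.2 = true then p.1.1 else p.1.1⁻¹)).prod = g) ∧
      ∃ K : ℕ, ∀ u v : List ({x // x ∈ X} × Bool), M.eval u ∈ M.accept → M.eval v ∈ M.accept →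
        (∃ z : List ({x // x ∈ X} × Bool), z.length ≤ 1 ∧
          (u.map (fun p : {x // x ∈ X} × Bool => if p.2 = true then p.1.1 else p.1.1⁻¹)).prod *
          (z.map (fun p : {x // x ∈ X} × Bool => if p.2 = true then p.1.1 else p.1.1⁻¹)).prod =
          (v.map (fun p : {x // x ∈ X} × Bool =>
            if p.2 = true then p.1.1 else p.1.1⁻¹)).prod) →
        ∀ t : ℕ, ∃ z : List ({x // x ∈ X} × Bool), z.length ≤ K ∧
          ((u.take t).map (fun p : {x // x ∈ X} × Bool =>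
            if p.2 = true then p.1.1 else p.1.1⁻¹)).prod *
          (z.map (fun p : {x // x ∈ X} × Bool => if p.2 = true then p.1.1 else p.1.1⁻¹)).prod =
          ((v.take t).map (fun p : {x // x ∈ X} × Bool =>
            if p.2 = true then p.1.1 else p.1.1⁻¹)).prod := by
  classical
  refine ⟨X, ?_, Set St, inferInstance, NN.toDFA, surj, 700, fellow⟩
  rw [eq_top_iff]
  intro g _
  obtain ⟨w, -, hw⟩ := surj g
  rw [← hw]
  exact wv_mem_closure w

end AutGeo.Cb
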