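import Pool.Agent.AutGeo.C.Word

set_option autoImplicit false

/-!
# Part B by a simple combing: fellow travelling of neighbours (helper80)
-/

namespace AutGeo.Cb

/-- the last letter of a segment is small -/
theorem last_BL (e : ℤˣ) (s : KK) (o : Option ℤˣ) (hs : s ∈ Tr e) : ((rem e s o, o) : Lt) ∈ BL :=
  Fi_box (rem_Fi e s o hs).1

theorem seg_length (e : ℤˣ) (s : KK) (o : Option ℤˣ) :
    (seg e s o).length = (nk e s o).natAbs + 1 := by
  simp [seg, ray]

/-- one crossing: the two prefixes are adjacent on the exit line -/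
theorem adj (o : ℤˣ) (j : ℤ) (hj : -1 ≤ j ∧ j ≤ 1) (k₀ : KK) (R : List (ℤˣ × KK)) (hR : Good R) :
    FT 83 (pre k₀ R (some o))
      (pre (rmul k₀ R (ent (-o) j)).1 (rmul k₀ R (ent (-o) j)).2 (some o)) ∧
    (pre k₀ R (some o)).length ≤
      (pre (rmul k₀ R (ent (-o) j)).1 (rmul k₀ R (ent (-o) j)).2 (some o)).length + 20 ∧
    (pre (rmul k₀ R (ent (-o) j)).1 (rmul k₀ R (ent (-o) j)).2 (some o)).length ≤
      (pre k₀ R (some o)).length + 20 := by
  induction R generalizing o j with
  | nil =>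
    have hs := re_mem 1 k₀
    obtain ⟨⟨hq1, hq2⟩, hk, hk1, hk2⟩ := step_key 1 o (re 1 k₀) hs j hj
    have h0 : k₀ * ent (-o) j =
        ent 1 (qq 1 k₀ + qq 1 (re 1 k₀ * ent (-o) j)) * re 1 (re 1 k₀ * ent (-o) j) := by
      rw [← ent_add, mul_assoc, ent_mul_re, ← mul_assoc, ent_mul_re]
    obtain ⟨e1, e2⟩ := qq_eq (re_mem 1 _) h0
    simp only [rmul, pre]
    rw [← e1, ← e2]
    set q := qq 1 (re 1 k₀ * ent (-o) j)
    set s' := re 1 (re 1 k₀ * ent (-o) j)
    have hst : (st (qq 1 k₀)).length = (qq 1 k₀).natAbs := by simp [st]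
    have hst' : (st (qq 1 k₀ + q)).length = (qq 1 k₀ + q).natAbs := by simp [st]
    refine ⟨?_, ?_, ?_⟩
    · simp only [seg, ← List.append_assoc]
      refine LC (st_BL _) (st_BL _) 1 q _ _ (last_BL 1 _ _ hs) (last_BL 1 _ _ (re_mem 1 _))
        20 1 20 83 ?_ ?_ ?_ ?_ ?_ ?_ ?_ ?_ ?_
      · exact st_FT _ _ (by push_cast; omega) (by push_cast; omega)
      · rw [hst, hst']; omega
      · rw [hst, hst']; omega
      · rw [st_val, st_val, ← map_mul, ent_one, wp_add]
      · push_cast; omega
      · push_cast; omega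
      · push_cast; omega
      · push_cast; omega
      · norm_num
    · rw [List.length_append, List.length_append, seg_length, seg_length, hst, hst']
      by_cases hq : q = 0
      · rw [hq, add_zero]; omega
      · rw [hk hq]; omega
    · rw [List.length_append, List.length_append, seg_length, seg_length, hst, hst']
      by_cases hq : q = 0
      · rw [hq, add_zero]; omega
      · rw [hk hq]; omega
  | cons p R ih =>
    obtain ⟨e, s⟩ := p
    have hs : s ∈ Tr e := hR.1 (e, s) List.mem_cons_self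
    obtain ⟨⟨hq1, hq2⟩, hk, hk1, hk2⟩ := step_key e o s hs j hj
    obtain ⟨ihft, ih1, ih2⟩ := ih e (qq e (s * ent (-o) j)) ⟨hq1, hq2⟩ (good_tail hR)
    simp only [rmul, pre]
    have hrm := rmul_one k₀ R (good_tail hR)
    have hval : val (pre (rmul k₀ R (ent (-e) (qq e (s * ent (-o) j)))).1
        (rmul k₀ R (ent (-e) (qq e (s * ent (-o) j)))).2 (some e)) =
        val (pre k₀ R (some e)) * of (ent e (qq e (s * ent (-o) j))) := by
      rw [pre_val, pre_val, V_rmul]
      simp only [tO]
      rw [mul_assoc, mul_assoc, te_mul_ent]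
    have hG := rmul_good k₀ R (ent (-e) (qq e (s * ent (-o) j))) (good_tail hR)
    refine ⟨?_, ?_, ?_⟩
    · simp only [seg, ← List.append_assoc]
      refine LC (pre_BL _ _ (good_tail hR) _) (pre_BL _ _ hG _) e (qq e (s * ent (-o) j)) _ _
        (last_BL e _ _ hs) (last_BL e _ _ (re_mem e _)) 20 1 20 83 ihft ih1 ih2 hval ?_ ?_ ?_ ?_ ?_
      · push_cast; omega
      · push_cast; omega
      · push_cast; omega
      · push_cast; omega
      · norm_num
    · rw [List.length_append, List.length_append, seg_length, seg_length]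
      by_cases hq : qq e (s * ent (-o) j) = 0
      · simp only [hq, ent_zero, hrm] at *
        omega
      · rw [hk hq]; omega
    · rw [List.length_append, List.length_append, seg_length, seg_length]
      by_cases hq : qq e (s * ent (-o) j) = 0
      · simp only [hq, ent_zero, hrm] at *
        omega
      · rw [hk hq]; omega

/-- several steps on the exit line -/
theorem adjN (o : ℤˣ) (N : ℕ) : ∀ (j : ℤ), j.natAbs ≤ N → ∀ (k₀ : KK) (R : List (ℤˣ × KK)),
    Good R → ∀ (k₀' : KK) (R' : List (ℤˣ × KK)), Good R' → V k₀' R' = V k₀ R * of (ent (-o) j) →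
    FT (83 * N) (pre k₀ R (some o)) (pre k₀' R' (some o)) ∧
    (pre k₀ R (some o)).length ≤ (pre k₀' R' (some o)).length + 20 * N ∧
    (pre k₀' R' (some o)).length ≤ (pre k₀ R (some o)).length + 20 * N := by
  induction N with
  | zero =>
    intro j hj k₀ R hR k₀' R' hR' hV
    have hj0 : j = 0 := by omega
    subst hj0
    rw [ent_zero, map_one, mul_one] at hV
    obtain ⟨rfl, rfl⟩ := good_unique hR' hR hV
    exact ⟨FT_refl _ _, by omega, by omega⟩
  | succ N ih =>
    intro j hj k₀ R hR k₀' R' hR' hV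
    by_cases hj' : j.natAbs ≤ N
    · obtain ⟨h1, h2, h3⟩ := ih j hj' k₀ R hR k₀' R' hR' hV
      exact ⟨h1.mono (by omega), by omega, by omega⟩
    · obtain ⟨j1, hj1, hj2⟩ : ∃ j1 : ℤ, (-1 ≤ j1 ∧ j1 ≤ 1) ∧ (j - j1).natAbs ≤ N := by
        rcases lt_trichotomy j 0 with h | h | h
        · exact ⟨-1, by omega, by omega⟩
        · exact ⟨0, by omega, by omega⟩
        · exact ⟨1, by omega, by omega⟩
      obtain ⟨h1, h2, h3⟩ := adj o j1 hj1 k₀ R hR
      obtain ⟨h1', h2', h3'⟩ := ih (j - j1) hj2 _ _ (rmul_good k₀ R (ent (-o) j1) hR) k₀' R' hR'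
        (by rw [V_rmul, hV, mul_assoc, ← map_mul, ent_add]; congr 3; ring)
      exact ⟨(h1.trans h1').mono (by omega), by omega, by omega⟩

/-- right multiplication by a small element of `KK` -/
theorem nbK (k₀ : KK) (R : List (ℤˣ × KK)) (hR : Good R) (y : KK)
    (hy : -8 ≤ y.v.1 ∧ y.v.1 ≤ 8 ∧ -8 ≤ y.v.2 ∧ y.v.2 ≤ 8) :
    FT 600 (pre k₀ R none) (pre (rmul k₀ R y).1 (rmul k₀ R y).2 none) := by
  cases R with
  | nil =>
    have hs := re_mem 1 k₀
    obtain ⟨⟨hq1, hq2⟩, hk1, hk2⟩ := step_box 1 (re 1 k₀) y hs hy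
    have h0 : k₀ * y = ent 1 (qq 1 k₀ + qq 1 (re 1 k₀ * y)) * re 1 (re 1 k₀ * y) := by
      rw [← ent_add, mul_assoc, ent_mul_re, ← mul_assoc, ent_mul_re]
    obtain ⟨e1, e2⟩ := qq_eq (re_mem 1 _) h0
    simp only [rmul, pre]
    rw [← e1, ← e2]
    set q := qq 1 (re 1 k₀ * y)
    have hst : (st (qq 1 k₀)).length = (qq 1 k₀).natAbs := by simp [st]
    have hst' : (st (qq 1 k₀ + q)).length = (qq 1 k₀ + q).natAbs := by simp [st]
    simp only [seg, ← List.append_assoc]
    refine LC (st_BL _) (st_BL _) 1 q _ _ (last_BL 1 _ _ hs) (last_BL 1 _ _ (re_mem 1 _))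
      7 7 50 600 ?_ ?_ ?_ ?_ ?_ ?_ ?_ ?_ ?_
    · exact st_FT _ _ (by push_cast; omega) (by push_cast; omega)
    · rw [hst, hst']; omega
    · rw [hst, hst']; omega
    · rw [st_val, st_val, ← map_mul, ent_one, wp_add]
    · push_cast; omega
    · push_cast; omega
    · push_cast; omega
    · push_cast; omega
    · norm_num
  | cons p R =>
    obtain ⟨e, s⟩ := p
    have hs : s ∈ Tr e := hR.1 (e, s) List.mem_cons_self
    obtain ⟨⟨hq1, hq2⟩, hk1, hk2⟩ := step_box e s y hs hy
    have hG := rmul_good k₀ R (ent (-e) (qq e (s * y))) (good_tail hR)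
    obtain ⟨ihft, ih1, ih2⟩ := adjN e 7 (qq e (s * y)) (by omega) k₀ R (good_tail hR) _ _ hG
      (V_rmul _ _ _)
    simp only [rmul, pre]
    have hval : val (pre (rmul k₀ R (ent (-e) (qq e (s * y)))).1
        (rmul k₀ R (ent (-e) (qq e (s * y)))).2 (some e)) =
        val (pre k₀ R (some e)) * of (ent e (qq e (s * y))) := by
      rw [pre_val, pre_val, V_rmul]
      simp only [tO]
      rw [mul_assoc, mul_assoc, te_mul_ent]
    simp only [seg, ← List.append_assoc]
    refine LC (pre_BL _ _ (good_tail hR) _) (pre_BL _ _ hG _) e (qq e (s * y)) _ _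
      (last_BL e _ _ hs) (last_BL e _ _ (re_mem e _)) 140 7 50 600 (ihft.mono (by norm_num))
      ih1 ih2 hval ?_ ?_ ?_ ?_ ?_
    · push_cast; omega
    · push_cast; omega
    · push_cast; omega
    · push_cast; omega
    · norm_num

/-- changing the exit of the last plane -/
theorem nb_exit (k₀ : KK) (R : List (ℤˣ × KK)) (hR : Good R) (o o' : Option ℤˣ) :
    FT 22 (pre k₀ R o) (pre k₀ R o') := by
  cases R with
  | nil =>
    have hs := re_mem 1 k₀
    simp only [pre, seg, ← List.append_assoc]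
    exact LC (st_BL _) (st_BL _) 1 0 _ _ (last_BL 1 _ _ hs) (last_BL 1 _ _ hs)
      0 0 20 22 (FT_refl _ _) (by omega) (by omega) (by rw [ent_zero, map_one, mul_one])
      (by norm_num) (by norm_num) (by exact_mod_cast nk_exit 1 o o' _ hs)
      (by exact_mod_cast nk_exit 1 o' o _ hs) (by norm_num)
  | cons p R =>
    obtain ⟨e, s⟩ := p
    have hs : s ∈ Tr e := hR.1 (e, s) List.mem_cons_self
    have hB := pre_BL k₀ R (good_tail hR) (some e)
    simp only [pre, seg, ← List.append_assoc]
    exact LC hB hB e 0 _ _ (last_BL e _ _ hs) (last_BL e _ _ hs)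
      0 0 20 22 (FT_refl _ _) (by omega) (by omega) (by rw [ent_zero, map_one, mul_one])
      (by norm_num) (by norm_num) (by exact_mod_cast nk_exit e o o' _ hs)
      (by exact_mod_cast nk_exit e o' o _ hs) (by norm_num)

/-- right multiplication by a crossing, first case -/
theorem nb_out (k₀ : KK) (R : List (ℤˣ × KK)) (hR : Good R) (o : ℤˣ) :
    FT 23 (pre k₀ R none) (pre k₀ ((o, 1) :: R) none) := by
  have h1 : (seg o 1 none).length = 1 := by
    rw [seg_length]
    have : nk o 1 none = 0 := by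
      simp only [nk, kdiv, LL, Ld, KK.one_v, KK.one_a, Prod.fst_zero, Prod.snd_zero]
      rcases Int.units_eq_one_or o with rfl | rfl <;> simp
    rw [this]
    rfl
  have h2 := FT_append (nb_exit k₀ R hR none (some o)) (seg o 1 none)
    (seg_BL o 1 none (one_mem_Tr o))
  rw [h1] at h2
  exact h2

/-- right multiplication by a crossing -/
theorem nb_te (k₀ : KK) (R : List (ℤˣ × KK)) (hR : Good R) (k₀' : KK) (R' : List (ℤˣ × KK))
    (hR' : Good R') (o : ℤˣ) (hV : V k₀' R' = V k₀ R * te o) :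
    FT 23 (pre k₀ R none) (pre k₀' R' none) := by
  by_cases hG : Good ((o, 1) :: R)
  · have h1 : V k₀' R' = V k₀ ((o, 1) :: R) := by
      rw [hV, V, map_one, mul_one]
    obtain ⟨rfl, rfl⟩ := good_unique hR' hG h1
    exact nb_out k₀' R hR o
  · cases R with
    | nil =>
      exfalso
      apply hG
      refine ⟨?_, List.isChain_singleton _⟩
      intro p hp
      rw [List.mem_singleton] at hp
      subst hp
      exact one_mem_Tr o
    | cons p R =>
      obtain ⟨e, s⟩ := p
      have hbad : ¬ (s ∈ HNNExtension.toSubgroup (line (2, 2)) (line (3, 0)) e → e = o) := by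
        intro h
        apply hG
        refine ⟨?_, List.isChain_cons_cons.2 ⟨h, hR.2⟩⟩
        intro p hp
        rcases List.mem_cons.1 hp with rfl | hp
        · exact one_mem_Tr o
        · exact hR.1 p hp
      push Not at hbad
      obtain ⟨hmem, hne⟩ := hbad
      obtain ⟨n, hn⟩ := (toSubgroup_mem e s).1 hmem
      have hs : s ∈ Tr e := hR.1 (e, s) List.mem_cons_self
      rw [hn] at hs
      have hn0 := mem_Tr_ent hs
      have hs1 : s = 1 := by rw [hn, hn0, ent_zero]
      have heo : o = -e := by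
        rcases Int.units_eq_one_or e with rfl | rfl <;>
          rcases Int.units_eq_one_or o with rfl | rfl <;> simp_all
      have h1 : V k₀' R' = V k₀ R := by
        rw [hV, V, hs1, map_one, mul_one, heo, te_neg, mul_inv_cancel_right]
      obtain ⟨rfl, rfl⟩ := good_unique hR' (good_tail hR) h1
      rw [hs1]
      exact (nb_out k₀' R' hR' e).symm

/-- right multiplication by a letter -/
theorem nb_letter (k₀ : KK) (R : List (ℤˣ × KK)) (hR : Good R) (k₀' : KK) (R' : List (ℤˣ × KK))
    (hR' : Good R') (y : Lt) (hy : y ∈ BL) (hV : V k₀' R' = V k₀ R * lv y) :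
    FT 700 (pre k₀ R none) (pre k₀' R' none) := by
  have h1 := nbK k₀ R hR y.1 hy
  have hG := rmul_good k₀ R y.1 hR
  have hV1 := V_rmul k₀ R y.1
  obtain ⟨y1, y2⟩ := y
  cases y2 with
  | none =>
    have h2 : V k₀' R' = V (rmul k₀ R y1).1 (rmul k₀ R y1).2 := by
      rw [hV, hV1]; simp [lv, tO]
    obtain ⟨e1, e2⟩ := good_unique hR' hG h2
    rw [e1, e2]
    exact h1.mono (by norm_num)
  | some o =>
    have h2 := nb_te _ _ hG k₀' R' hR' o (by rw [hV, hV1]; simp [lv, tO, mul_assoc])
    exact (h1.trans h2).mono (by norm_num)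

end AutGeo.Cb
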