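import Pool.Agent.AutGeo.C.Ari

set_option autoImplicit false

/-!
# Part B by a simple combing: normal forms with the strips as transversals (helper80)

The list `R` is the reversed `toList` of Mathlib's `NormalWord`.
-/

namespace AutGeo.Cb

open HNNExtension hiding of

/-- The strips form a pair of transversals. -/
def trPair : NormalWord.TransversalPair KK (line (2, 2)) (line (3, 0)) where
  set := Tr
  compl := by
    intro e
    constructor
    · rintro ⟨⟨a, ha⟩, ⟨s, hs⟩⟩ ⟨⟨a', ha'⟩, ⟨s', hs'⟩⟩ h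
      obtain ⟨n, rfl⟩ := (toSubgroup_mem e a).1 ha
      obtain ⟨n', rfl⟩ := (toSubgroup_mem e a').1 ha'
      simp only at h
      have h1 := qq_eq (q := n) hs rfl
      have h2 := qq_eq (q := n') hs' h
      have h3 : n = n' := by rw [h1.1, h2.1]
      subst h3
      have h4 : s = s' := mul_left_cancel h
      subst h4
      rfl
    · intro s
      refine ⟨⟨⟨ent e (qq e s), (toSubgroup_mem e _).2 ⟨_, rfl⟩⟩, ⟨re e s, re_mem e s⟩⟩, ?_⟩
      exact ent_mul_re e s

/-- value of the data `(k₀, R)` -/
noncomputable def V (k₀ : KK) : List (ℤˣ × KK) → GG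
  | [] => of k₀
  | (e, s) :: R => V k₀ R * te e * of s

/-- admissible data -/
def Good (R : List (ℤˣ × KK)) : Prop :=
  (∀ p ∈ R, p.2 ∈ Tr p.1) ∧
    R.IsChain (fun x y => y.2 ∈ toSubgroup (line (2, 2)) (line (3, 0)) y.1 → y.1 = x.1)

theorem V_eq_prod (k₀ : KK) (R : List (ℤˣ × KK)) :
    V k₀ R = of k₀ * (R.reverse.map (fun x : ℤˣ × KK => te x.1 * of x.2)).prod := by
  induction R with
  | nil => simp [V]
  | cons p R ih =>
    obtain ⟨e, s⟩ := p
    rw [V, ih, List.reverse_cons, List.map_append, List.prod_append]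
    simp [mul_assoc]

/-- The normal word of admissible data. -/
def toNW (k₀ : KK) (R : List (ℤˣ × KK)) (h : Good R) : NormalWord trPair where
  head := k₀
  toList := R.reverse
  chain := by
    rw [List.isChain_reverse]
    exact h.2
  mem_set := by
    intro u g hg
    exact h.1 (u, g) (List.mem_reverse.1 hg)

theorem toNW_prod (k₀ : KK) (R : List (ℤˣ × KK)) (h : Good R) :
    (toNW k₀ R h).prod phi = V k₀ R := by
  rw [V_eq_prod]; rfl

theorem good_unique {k₀ k₀' : KK} {R R' : List (ℤˣ × KK)} (h : Good R) (h' : Good R')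
    (hV : V k₀ R = V k₀' R') : k₀ = k₀' ∧ R = R' := by
  have h1 : toNW k₀ R h = toNW k₀' R' h' := by
    apply NormalWord.prod_injective phi trPair
    simp only [toNW_prod, hV]
  have h2 := congrArg (fun w => w.head) h1
  have h3 := congrArg (fun w => w.toList) h1
  exact ⟨h2, List.reverse_injective h3⟩

theorem good_exists (g : GG) : ∃ k₀ R, Good R ∧ V k₀ R = g := by
  obtain ⟨w, hw⟩ := (NormalWord.equiv phi trPair).symm.surjective g
  have hg : Good w.toList.reverse := by
    constructor
    · rintro ⟨e, s⟩ hp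
      exact w.mem_set e s (List.mem_reverse.1 hp)
    · rw [List.isChain_reverse]
      exact w.chain
  refine ⟨w.head, w.toList.reverse, hg, ?_⟩
  have h1 : toNW w.head w.toList.reverse hg = w :=
    NormalWord.ext rfl (List.reverse_reverse _)
  rw [← toNW_prod _ _ hg, ← hw, h1]
  rfl

/-- right multiplication by an element of `K` -/
def rmul (k₀ : KK) : List (ℤˣ × KK) → KK → KK × List (ℤˣ × KK)
  | [], k => (k₀ * k, [])
  | (e, s) :: R, k =>
    ((rmul k₀ R (ent (-e) (qq e (s * k)))).1,
      (e, re e (s * k)) :: (rmul k₀ R (ent (-e) (qq e (s * k)))).2)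

theorem V_rmul (k₀ : KK) (R : List (ℤˣ × KK)) (k : KK) :
    V (rmul k₀ R k).1 (rmul k₀ R k).2 = V k₀ R * of k := by
  induction R generalizing k with
  | nil => simp [rmul, V]
  | cons p R ih =>
    obtain ⟨e, s⟩ := p
    simp only [rmul, V]
    rw [ih, mul_assoc (V k₀ R), ← te_mul_ent, mul_assoc, mul_assoc, mul_assoc, ← map_mul,
      ent_mul_re, map_mul, mul_assoc]

theorem rmul_fst_map (k₀ : KK) (R : List (ℤˣ × KK)) (k : KK) :
    ((rmul k₀ R k).2).map Prod.fst = R.map Prod.fst := by
  induction R generalizing k with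
  | nil => rfl
  | cons p R ih => simp [rmul, ih]

theorem good_tail {p : ℤˣ × KK} {R : List (ℤˣ × KK)} (h : Good (p :: R)) : Good R :=
  ⟨fun q hq => h.1 q (List.mem_cons_of_mem _ hq), h.2.tail⟩

theorem one_mem_Tr (e : ℤˣ) : (1 : KK) ∈ Tr e := by
  simp only [Tr, Set.mem_ofPred_eq, sg, DD, KK.one_v, Prod.fst_zero, Prod.snd_zero]
  split_ifs <;> omega

theorem re_of_mem {e : ℤˣ} {s : KK} (hs : s ∈ Tr e) : qq e s = 0 ∧ re e s = s := by
  have := qq_eq (q := 0) (s := s) hs (by rw [ent_zero, one_mul])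
  exact ⟨this.1.symm, this.2.symm⟩

theorem mem_Tr_ent {e : ℤˣ} {n : ℤ} (h : ent e n ∈ Tr e) : n = 0 := by
  have h1 := re_of_mem h
  have h2 := qq_eq (q := n) (s := ent e n) (one_mem_Tr e) (by rw [mul_one])
  rw [h2.1, h1.1]

theorem rmul_good (k₀ : KK) (R : List (ℤˣ × KK)) (k : KK) (h : Good R) :
    Good (rmul k₀ R k).2 := by
  induction R generalizing k with
  | nil => exact h
  | cons p R ih =>
    obtain ⟨e, s⟩ := p
    have ih' := ih (ent (-e) (qq e (s * k))) (good_tail h)
    cases R with
    | nil =>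
      refine ⟨?_, ?_⟩
      · intro q hq
        simp only [rmul, List.mem_cons, List.not_mem_nil, or_false] at hq
        subst hq
        exact re_mem _ _
      · simp [rmul]
    | cons p' R' =>
      obtain ⟨e', s'⟩ := p'
      refine ⟨?_, ?_⟩
      · intro q hq
        simp only [rmul, List.mem_cons] at hq
        rcases hq with rfl | hq
        · exact re_mem _ _
        · exact ih'.1 q (by simpa [rmul] using hq)
      · have h2 := ih'.2
        simp only [rmul] at h2 ⊢
        refine List.isChain_cons_cons.2 ⟨?_, h2⟩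
        intro hmem
        simp only at hmem ⊢
        by_contra hne
        have he : e = -e' := by
          rcases Int.units_eq_one_or e with rfl | rfl <;>
            rcases Int.units_eq_one_or e' with rfl | rfl <;> simp_all
        obtain ⟨m, hm⟩ := (toSubgroup_mem e' _).1 hmem
        obtain ⟨m', hm'⟩ : ∃ m', s' * ent (-e) (qq e (s * k)) = ent e' m' :=
          ⟨_, by rw [← ent_mul_re e' (s' * ent (-e) (qq e (s * k))), hm, ent_add]⟩
        have h4 : s' = ent e' (m' + -(qq e (s * k))) := by
          have h6 : s' = ent e' m' * (ent (-e) (qq e (s * k)))⁻¹ := by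
            rw [← hm', mul_inv_cancel_right]
          rw [h6, ent_inv, he, neg_neg, ent_add]
        have h7 := (List.isChain_cons_cons.1 h.2).1
        exact hne (h7 ((toSubgroup_mem e' _).2 ⟨_, h4⟩))

theorem rmul_one (k₀ : KK) (R : List (ℤˣ × KK)) (h : Good R) : rmul k₀ R 1 = (k₀, R) := by
  have h1 := good_unique (k₀ := (rmul k₀ R 1).1) (k₀' := k₀) (rmul_good k₀ R 1 h) h
    (by rw [V_rmul, map_one, mul_one])
  exact Prod.ext h1.1 h1.2

/-- Any other data for `V k₀ R * k` are the ones given by `rmul`. -/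
theorem eq_rmul {k₀ k₀' : KK} {R R' : List (ℤˣ × KK)} {k : KK} (h : Good R) (h' : Good R')
    (hV : V k₀' R' = V k₀ R * of k) : k₀' = (rmul k₀ R k).1 ∧ R' = (rmul k₀ R k).2 :=
  good_unique h' (rmul_good k₀ R k h) (by rw [hV, V_rmul])

end AutGeo.Cb
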