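import Pool.Agent.AutGeo.C.Fellow

set_option autoImplicit false

/-!
# Part B by a simple combing: the automaton (helper80)
-/

namespace AutGeo.Cb

/-- states of the automaton -/
inductive St : Type
  | s0 | sp | sm | fi
  | en (e : ℤˣ)
  | ry (e : ℤˣ) (b : Bool)
deriving DecidableEq, Fintype

/-- type of the plane -/
def ty : St → ℤˣ
  | St.en e => e
  | St.ry e _ => e
  | _ => 1

/-- state after a last letter -/
def tgt : Option ℤˣ → St
  | none => St.fi
  | some e => St.en e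

/-- ray letter -/
def dl (e : ℤˣ) (b : Bool) : Lt := (dK e (if b = true then 1 else -1), none)

/-- the transitions -/
inductive Stp : St → Lt → St → Prop
  | wp0 : Stp St.s0 (wp 1, none) St.sp
  | wpp : Stp St.sp (wp 1, none) St.sp
  | wm0 : Stp St.s0 (wp (-1), none) St.sm
  | wmm : Stp St.sm (wp (-1), none) St.sm
  | ray1 (q : St) (b : Bool) (h : q = St.s0 ∨ q = St.sp ∨ q = St.sm ∨ ∃ e, q = St.en e) :
      Stp q (dl (ty q) b) (St.ry (ty q) b)
  | ray2 (e : ℤˣ) (b : Bool) : Stp (St.ry e b) (dl e b) (St.ry e b)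
  | last1 (q : St) (x : Lt) (h : q = St.s0 ∨ q = St.sp ∨ q = St.sm ∨ ∃ e, q = St.en e)
      (hF : x.1 ∈ Fi (ty q) x.2) (hr : ∀ e, q = St.en e → x.1 = 1 → x.2 ≠ some (-e)) :
      Stp q x (tgt x.2)
  | last2 (e : ℤˣ) (b : Bool) (x : Lt) (hF : x.1 ∈ Fi e x.2)
      (h1 : b = true → 0 ≤ LL e x.1.a x.2 x.1.v.1 x.1.v.2)
      (h2 : b = false → LL e x.1.a x.2 x.1.v.1 x.1.v.2 ≤ 0) :
      Stp (St.ry e b) x (tgt x.2)

/-- The next crossing may be `e`. -/
def Ext (e : ℤˣ) (R : List (ℤˣ × KK)) : Prop :=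
  ∀ p ∈ R.head?, p.2 ∈ HNNExtension.toSubgroup (line (2, 2)) (line (3, 0)) p.1 → p.1 = e

theorem good_cons {e : ℤˣ} {s : KK} {R : List (ℤˣ × KK)} :
    Good ((e, s) :: R) ↔ s ∈ Tr e ∧ Ext e R ∧ Good R := by
  constructor
  · intro h
    refine ⟨h.1 (e, s) List.mem_cons_self, ?_, good_tail h⟩
    intro p hp hm
    exact (List.isChain_cons.1 h.2).1 p hp hm
  · rintro ⟨h1, h2, h3⟩
    refine ⟨?_, List.isChain_cons.2 ⟨h2, h3.2⟩⟩
    intro p hp
    rcases List.mem_cons.1 hp with rfl | hp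
    · exact h1
    · exact h3.1 p hp

/-- prefixes before a plane of type `e` -/
def Pfx (e : ℤˣ) (P : List Lt) : Prop :=
  (e = 1 ∧ ∃ q, P = st q) ∨ ∃ k₀ R, Good R ∧ Ext e R ∧ P = pre k₀ R (some e)

/-- what is known about the word read so far -/
def Inv : St → List Lt → Prop
  | St.s0, l => l = []
  | St.sp, l => ∃ n : ℕ, l = List.replicate n (wp 1, none)
  | St.sm, l => ∃ n : ℕ, l = List.replicate n (wp (-1), none)
  | St.fi, l => ∃ k₀ R, Good R ∧ l = pre k₀ R none
  | St.en e, l => ∃ k₀ R, Good R ∧ Ext e R ∧ l = pre k₀ R (some e)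
  | St.ry e b, l => ∃ (P : List Lt) (n : ℕ), 0 < n ∧ Pfx e P ∧ l = P ++ List.replicate n (dl e b)

theorem replicate_wp (n : ℕ) : (List.replicate n (wp 1, none) : List Lt) = st n := by
  rcases Nat.eq_zero_or_pos n with rfl | hn
  · rfl
  · rw [st, Int.sign_eq_one_of_pos (by omega), Int.natAbs_natCast]

theorem replicate_wm (n : ℕ) : (List.replicate n (wp (-1), none) : List Lt) = st (-n) := by
  rcases Nat.eq_zero_or_pos n with rfl | hn
  · rfl
  · rw [st, Int.sign_eq_neg_one_of_neg (by omega), Int.natAbs_neg, Int.natAbs_natCast]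

theorem replicate_dl (e : ℤˣ) (b : Bool) (n : ℕ) :
    List.replicate n (dl e b) = ray e (if b = true then (n : ℤ) else -n) := by
  rcases Nat.eq_zero_or_pos n with rfl | hn
  · cases b <;> rfl
  · cases b
    · rw [ray, dl, if_neg (by simp), if_neg (by simp), Int.sign_eq_neg_one_of_neg (by omega),
        Int.natAbs_neg, Int.natAbs_natCast]
    · rw [ray, dl, if_pos rfl, if_pos rfl, Int.sign_eq_one_of_pos (by omega),
        Int.natAbs_natCast]

theorem Inv_Pfx {q : St} {l : List Lt} (hq : q = St.s0 ∨ q = St.sp ∨ q = St.sm ∨ ∃ e, q = St.en e)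
    (h : Inv q l) : Pfx (ty q) l := by
  rcases hq with rfl | rfl | rfl | ⟨e, rfl⟩
  · exact Or.inl ⟨rfl, 0, h⟩
  · obtain ⟨n, rfl⟩ := h
    exact Or.inl ⟨rfl, n, replicate_wp n⟩
  · obtain ⟨n, rfl⟩ := h
    exact Or.inl ⟨rfl, -n, replicate_wm n⟩
  · exact Or.inr h

/-- a last letter -/
theorem Pfx_last {e : ℤˣ} {P : List Lt} (hP : Pfx e P) (n : ℤ) (x : Lt) (hF : x.1 ∈ Fi e x.2)
    (h1 : 0 < n → 0 ≤ LL e x.1.a x.2 x.1.v.1 x.1.v.2)
    (h2 : n < 0 → LL e x.1.a x.2 x.1.v.1 x.1.v.2 ≤ 0)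
    (hr : n = 0 → (∃ k₀ R, Good R ∧ Ext e R ∧ P = pre k₀ R (some e)) → x.1 = 1 →
      x.2 ≠ some (-e) ∨ (e = 1 ∧ ∃ q, P = st q)) :
    Inv (tgt x.2) (P ++ ray e n ++ [x]) := by
  obtain ⟨r, o⟩ := x
  simp only at *
  obtain ⟨hs, hn⟩ := nk_of_Fi e o n r hF h1 h2
  have hrem := rem_of_Fi e o n r hF h1 h2
  have hseg : seg e (dK e n * r) o = ray e n ++ [(r, o)] := by rw [seg, hn, hrem]
  by_cases hb : e = 1 ∧ ∃ q, P = st q
  · obtain ⟨rfl, q, rfl⟩ := hb
    have h0 : wp q * (dK 1 n * r) = ent 1 q * (dK 1 n * r) := rfl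
    obtain ⟨e1, e2⟩ := qq_eq hs h0
    have hpre : pre (wp q * (dK 1 n * r)) [] o = st q ++ ray 1 n ++ [(r, o)] := by
      rw [pre, ← e1, ← e2, hseg, List.append_assoc]
    have hG : Good [] := ⟨by simp, List.isChain_nil⟩
    cases o with
    | none => exact ⟨_, [], hG, hpre.symm⟩
    | some o => exact ⟨_, [], hG, by intro p hp; simp at hp, hpre.symm⟩
  · obtain ⟨k₀, R, hR, hE, hPe⟩ := hP.resolve_left hb
    have hpre : pre k₀ ((e, dK e n * r) :: R) o = P ++ ray e n ++ [(r, o)] := by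
      rw [pre, hseg, hPe, List.append_assoc]
    have hG : Good ((e, dK e n * r) :: R) := good_cons.2 ⟨hs, hE, hR⟩
    cases o with
    | none => exact ⟨_, _, hG, hpre.symm⟩
    | some o =>
      refine ⟨_, _, hG, ?_, hpre.symm⟩
      intro p hp hm
      simp only [List.head?_cons, Option.mem_def, Option.some.injEq] at hp
      subst hp
      simp only at hm ⊢
      obtain ⟨m, hm'⟩ := (toSubgroup_mem e _).1 hm
      rw [hm'] at hs
      have hm0 := mem_Tr_ent hs
      rw [hm0, ent_zero] at hm'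
      have hn0 : n = 0 := by
        rw [← hn, hm']
        simp only [nk, kdiv, LL, Ld, KK.one_v, KK.one_a, Prod.fst_zero, Prod.snd_zero]
        rcases Int.units_eq_one_or e with rfl | rfl <;> split_ifs <;> simp
      have hr1 : r = 1 := by
        rw [hn0, dK_zero, one_mul] at hm'
        exact hm'
      rcases hr hn0 ⟨k₀, R, hR, hE, hPe⟩ hr1 with h | h
      · rcases Int.units_eq_one_or e with rfl | rfl <;>
          rcases Int.units_eq_one_or o with rfl | rfl <;> simp_all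
      · exact absurd h hb

/-- The invariant is preserved. -/
theorem Inv_step {q q' : St} {x : Lt} {l : List Lt} (h : Inv q l) (hs : Stp q x q') :
    Inv q' (l ++ [x]) := by
  cases hs with
  | wp0 =>
    have h' : l = [] := h
    exact ⟨1, by rw [h']; rfl⟩
  | wpp =>
    obtain ⟨n, rfl⟩ := h
    exact ⟨n + 1, by rw [List.replicate_succ']⟩
  | wm0 =>
    have h' : l = [] := h
    exact ⟨1, by rw [h']; rfl⟩
  | wmm =>
    obtain ⟨n, rfl⟩ := h
    exact ⟨n + 1, by rw [List.replicate_succ']⟩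
  | ray1 q b hq => exact ⟨l, 1, Nat.one_pos, Inv_Pfx hq h, rfl⟩
  | ray2 e b =>
    obtain ⟨P, n, hn, hP, rfl⟩ := h
    exact ⟨P, n + 1, by omega, hP, by rw [List.replicate_succ', List.append_assoc]⟩
  | last1 q x hq hF hr =>
    have h1 := Pfx_last (Inv_Pfx hq h) 0 x hF (by omega) (by omega) (by
      intro _ hPR hx1
      rcases hq with rfl | rfl | rfl | ⟨e, rfl⟩
      · exact Or.inr ⟨rfl, 0, h⟩
      · obtain ⟨n, rfl⟩ := h
        exact Or.inr ⟨rfl, n, replicate_wp n⟩
      · obtain ⟨n, rfl⟩ := h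
        exact Or.inr ⟨rfl, -n, replicate_wm n⟩
      · exact Or.inl (hr e rfl hx1))
    have h2 : ray (ty q) 0 = [] := rfl
    rw [h2, List.append_nil] at h1
    exact h1
  | last2 e b x hF hp hm =>
    obtain ⟨P, n, hn, hP, rfl⟩ := h
    rw [replicate_dl]
    refine Pfx_last hP _ x hF ?_ ?_ ?_
    · intro h0
      cases b
      · simp at h0; omega
      · exact hp rfl
    · intro h0
      cases b
      · exact hm rfl
      · simp at h0; omega
    · intro h0
      cases b <;> simp at h0 <;> omega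

/-- words that lead from the start to a state -/
inductive Rch : St → List Lt → Prop
  | nil : Rch St.s0 []
  | snoc {q q' : St} {x : Lt} {l : List Lt} : Rch q l → x ∈ BL → Stp q x q' → Rch q' (l ++ [x])

theorem Rch_Inv {q : St} {l : List Lt} (h : Rch q l) : Inv q l ∧ ∀ x ∈ l, x ∈ BL := by
  induction h with
  | nil => exact ⟨rfl, by simp⟩
  | snoc h hx hs ih =>
    refine ⟨Inv_step ih.1 hs, ?_⟩
    intro y hy
    rcases List.mem_append.1 hy with hy | hy
    · exact ih.2 y hy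
    · rw [List.mem_singleton] at hy
      rw [hy]; exact hx

theorem wp_BL (b : Bool) : ((wp (if b = true then 1 else -1), none) : Lt) ∈ BL := by
  cases b <;> simp only [BL, Set.mem_ofPred_eq, wp, tr_x, tr_y] <;> norm_num

theorem dl_BL (e : ℤˣ) (b : Bool) : dl e b ∈ BL := by
  simp only [dl, BL, Set.mem_ofPred_eq, dK, tr_x, tr_y, dx, dy]
  cases b <;> split_ifs <;> norm_num

theorem Rch_sp (n : ℕ) : Rch St.sp (List.replicate (n + 1) (wp 1, none)) := by
  induction n with
  | zero => exact Rch.snoc Rch.nil (wp_BL true) Stp.wp0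
  | succ n ih =>
    rw [List.replicate_succ']
    exact Rch.snoc ih (wp_BL true) Stp.wpp

theorem Rch_sm (n : ℕ) : Rch St.sm (List.replicate (n + 1) (wp (-1), none)) := by
  induction n with
  | zero => exact Rch.snoc Rch.nil (wp_BL false) Stp.wm0
  | succ n ih =>
    rw [List.replicate_succ']
    exact Rch.snoc ih (wp_BL false) Stp.wmm

theorem Rch_st (q : ℤ) : ∃ q' : St, (q' = St.s0 ∨ q' = St.sp ∨ q' = St.sm) ∧ Rch q' (st q) := by
  rcases lt_trichotomy q 0 with h | rfl | h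
  · refine ⟨St.sm, by simp, ?_⟩
    have h1 := Rch_sm (q.natAbs - 1)
    rw [replicate_wm] at h1
    have h2 : -((q.natAbs - 1 + 1 : ℕ) : ℤ) = q := by omega
    rwa [h2] at h1
  · exact ⟨St.s0, by simp, Rch.nil⟩
  · refine ⟨St.sp, by simp, ?_⟩
    have h1 := Rch_sp (q.natAbs - 1)
    rw [replicate_wp] at h1
    have h2 : ((q.natAbs - 1 + 1 : ℕ) : ℤ) = q := by omega
    rwa [h2] at h1

theorem Rch_ray {q : St} {l : List Lt} (h : Rch q l)
    (hq : q = St.s0 ∨ q = St.sp ∨ q = St.sm ∨ ∃ e, q = St.en e) (b : Bool) (n : ℕ) :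
    Rch (St.ry (ty q) b) (l ++ List.replicate (n + 1) (dl (ty q) b)) := by
  induction n with
  | zero => exact Rch.snoc h (dl_BL _ _) (Stp.ray1 q b hq)
  | succ n ih =>
    rw [List.replicate_succ', ← List.append_assoc]
    exact Rch.snoc ih (dl_BL _ _) (Stp.ray2 _ b)

theorem Rch_seg {q : St} {l : List Lt} (h : Rch q l)
    (hq : q = St.s0 ∨ q = St.sp ∨ q = St.sm ∨ ∃ e, q = St.en e) (s : KK) (hs : s ∈ Tr (ty q))
    (o : Option ℤˣ) (hr : ∀ e, q = St.en e → s = 1 → o ≠ some (-e)) :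
    Rch (tgt o) (l ++ seg (ty q) s o) := by
  obtain ⟨hF, h1, h2⟩ := rem_Fi (ty q) s o hs
  have hB : ((rem (ty q) s o, o) : Lt) ∈ BL := Fi_box hF
  rcases lt_trichotomy (nk (ty q) s o) 0 with hn | hn | hn
  · have h3 := Rch_ray h hq false ((nk (ty q) s o).natAbs - 1)
    have h4 := Rch.snoc h3 hB (Stp.last2 (ty q) false (rem (ty q) s o, o) hF (by simp)
      (fun _ => h2 hn))
    rw [replicate_dl, List.append_assoc] at h4
    have h5 : (if false = true then (((nk (ty q) s o).natAbs - 1 + 1 : ℕ) : ℤ) else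
        -((nk (ty q) s o).natAbs - 1 + 1 : ℕ)) = nk (ty q) s o := by
      simp only [Bool.false_eq_true, if_false]; omega
    rw [h5] at h4
    exact h4
  · have h3 : seg (ty q) s o = [(rem (ty q) s o, o)] := by
      rw [seg, hn]; rfl
    rw [h3]
    refine Rch.snoc h hB (Stp.last1 q _ hq hF ?_)
    intro e he h4
    refine hr e he ?_
    simp only at h4
    rw [← h4, rem, hn, neg_zero, dK_zero, one_mul]
  · have h3 := Rch_ray h hq true ((nk (ty q) s o).natAbs - 1)
    have h4 := Rch.snoc h3 hB (Stp.last2 (ty q) true (rem (ty q) s o, o) hF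
      (fun _ => h1 hn) (by simp))
    rw [replicate_dl, List.append_assoc] at h4
    have h5 : (if true = true then (((nk (ty q) s o).natAbs - 1 + 1 : ℕ) : ℤ) else
        -((nk (ty q) s o).natAbs - 1 + 1 : ℕ)) = nk (ty q) s o := by
      simp only [if_true]; omega
    rw [h5] at h4
    exact h4

theorem Rch_pre (k₀ : KK) (R : List (ℤˣ × KK)) (hR : Good R) (o : Option ℤˣ)
    (ho : ∀ e, o = some e → Ext e R) : Rch (tgt o) (pre k₀ R o) := by
  induction R generalizing o with
  | nil =>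
    obtain ⟨q', hq', h⟩ := Rch_st (qq 1 k₀)
    have hty : ty q' = 1 := by rcases hq' with rfl | rfl | rfl <;> rfl
    have h1 := Rch_seg h (by tauto) (re 1 k₀) (by rw [hty]; exact re_mem 1 k₀) o (by
      intro e he
      rcases hq' with rfl | rfl | rfl <;> simp at he)
    rw [hty] at h1
    exact h1
  | cons p R ih =>
    obtain ⟨e, s⟩ := p
    obtain ⟨hs, hE, hR'⟩ := good_cons.1 hR
    have h := ih hR' (some e) (by
      intro e' he'
      simp only [Option.some.injEq] at he'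
      rw [← he']; exact hE)
    refine Rch_seg h (Or.inr (Or.inr (Or.inr ⟨e, rfl⟩))) s hs o ?_
    intro e' he' h1 h2
    have he : e = e' := by
      simp only [tgt, St.en.injEq] at he'
      exact he'
    subst he
    have h3 := ho (-e) h2 (e, s) (by simp) (by
      rw [h1]; exact Subgroup.one_mem _)
    simp only at h3
    exact absurd h3 (by rcases Int.units_eq_one_or e with rfl | rfl <;> decide)

end AutGeo.Cb
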