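import Pool.Agent.AutGeo.C.NF

set_option autoImplicit false

/-!
# Part B by a simple combing: words of the combing and fellow travelling (helper80)
-/

namespace AutGeo.Cb

/-- letters: an element of `KK` and possibly a crossing -/
abbrev Lt : Type := KK × Option ℤˣ

/-- the crossing -/
noncomputable def tO : Option ℤˣ → GG
  | none => 1
  | some e => te e

/-- value of a letter -/
noncomputable def lv (x : Lt) : GG := of x.1 * tO x.2

/-- value of a word -/
noncomputable def val (l : List Lt) : GG := (l.map lv).prod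

theorem val_nil : val [] = 1 := rfl
theorem val_append (l m : List Lt) : val (l ++ m) = val l * val m := by
  simp [val]
theorem val_single (x : Lt) : val [x] = lv x := by simp [val]

/-- ray -/
def ray (e : ℤˣ) (n : ℤ) : List Lt := List.replicate n.natAbs (dK e n.sign, none)
/-- segment -/
def seg (e : ℤˣ) (s : KK) (o : Option ℤˣ) : List Lt := ray e (nk e s o) ++ [(rem e s o, o)]
/-- start -/
def st (q : ℤ) : List Lt := List.replicate q.natAbs (wp q.sign, none)

/-- The word of the data `(k₀, R)` followed by the crossing `o`. -/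
def pre (k₀ : KK) : List (ℤˣ × KK) → Option ℤˣ → List Lt
  | [], o => st (qq 1 k₀) ++ seg 1 (re 1 k₀) o
  | (e, s) :: R, o => pre k₀ R (some e) ++ seg e s o

/-- letters with small group element -/
def BL : Set Lt :=
  {x | -8 ≤ x.1.v.1 ∧ x.1.v.1 ≤ 8 ∧ -8 ≤ x.1.v.2 ∧ x.1.v.2 ≤ 8}

/-- word length at most `n` with respect to the letters in `BL` -/
def WL (n : ℕ) (g : GG) : Prop :=
  ∃ l : List GG, l.length ≤ n ∧ (∀ x ∈ l, ∃ y ∈ BL, x = lv y ∨ x = (lv y)⁻¹) ∧ l.prod = g

theorem WL.mono {m n : ℕ} {g : GG} (h : WL m g) (hmn : m ≤ n) : WL n g := by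
  obtain ⟨l, h1, h2, h3⟩ := h
  exact ⟨l, h1.trans hmn, h2, h3⟩

theorem WL_one : WL 0 (1 : GG) := ⟨[], le_refl _, by simp, rfl⟩

theorem WL.mul {m n : ℕ} {g h : GG} (hg : WL m g) (hh : WL n h) : WL (m + n) (g * h) := by
  obtain ⟨l, h1, h2, h3⟩ := hg
  obtain ⟨l', h1', h2', h3'⟩ := hh
  refine ⟨l ++ l', ?_, ?_, ?_⟩
  · rw [List.length_append]; omega
  · intro x hx
    rcases List.mem_append.1 hx with hx | hx
    · exact h2 x hx
    · exact h2' x hx
  · rw [List.prod_append, h3, h3']

theorem WL.inv {n : ℕ} {g : GG} (hg : WL n g) : WL n g⁻¹ := by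
  obtain ⟨l, h1, h2, h3⟩ := hg
  refine ⟨(l.map (·⁻¹)).reverse, by simpa using h1, ?_, ?_⟩
  · intro x hx
    rw [List.mem_reverse, List.mem_map] at hx
    obtain ⟨y, hy, rfl⟩ := hx
    obtain ⟨z, hz, hz' | hz'⟩ := h2 y hy
    · exact ⟨z, hz, Or.inr (by rw [hz'])⟩
    · exact ⟨z, hz, Or.inl (by rw [hz', inv_inv])⟩
  · rw [← h3, List.prod_inv_reverse]

theorem WL_lv {x : Lt} (hx : x ∈ BL) : WL 1 (lv x) :=
  ⟨[lv x], by simp, by
    intro y hy
    rw [List.mem_singleton] at hy
    exact ⟨x, hx, Or.inl hy⟩, by simp⟩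

theorem WL_val {l : List Lt} (hl : ∀ x ∈ l, x ∈ BL) : WL l.length (val l) := by
  induction l with
  | nil => exact WL_one
  | cons x l ih =>
    have h1 : val (x :: l) = lv x * val l := by simp [val]
    rw [h1, List.length_cons, add_comm]
    exact (WL_lv (hl x List.mem_cons_self)).mul (ih fun y hy => hl y (List.mem_cons_of_mem _ hy))

/-- one parameter families -/
theorem fam_pow (f : ℤ → KK) (h0 : f 0 = 1) (hadd : ∀ m n, f m * f n = f (m + n)) (s : ℤ) (k : ℕ) :
    val (List.replicate k (f s, none)) = of (f (k * s)) := by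
  induction k with
  | zero => simp [val_nil, h0]
  | succ k ih =>
    rw [List.replicate_succ', val_append, ih, val_single]
    simp only [lv, tO, mul_one]
    rw [← map_mul, hadd]
    congr 2
    push_cast
    ring

/-- position on a ray -/
def pos (n j : ℤ) : ℤ := if 0 ≤ n then max 0 (min j n) else -max 0 (min j (-n))

theorem pos_diff {n n' j j' c c' : ℤ} (h1 : n - n' ≤ c) (h2 : n' - n ≤ c) (h3 : j - j' ≤ c')
    (h4 : j' - j ≤ c') : pos n j - pos n' j' ≤ c + c' ∧ pos n' j' - pos n j ≤ c + c' := by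
  simp only [pos]
  split_ifs <;> omega

theorem fam_take (f : ℤ → KK) (h0 : f 0 = 1) (hadd : ∀ m n, f m * f n = f (m + n)) (n : ℤ)
    (i : ℕ) : val ((List.replicate n.natAbs (f n.sign, none)).take i) = of (f (pos n i)) := by
  rw [List.take_replicate, fam_pow f h0 hadd]
  congr 2
  simp only [pos]
  rcases lt_trichotomy n 0 with hn | rfl | hn
  · rw [Int.sign_eq_neg_one_of_neg hn, if_neg (by omega)]
    push_cast
    rw [Int.abs_eq_natAbs]
    omega
  · simp
  · rw [Int.sign_eq_one_of_pos hn, if_pos hn.le]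
    push_cast
    rw [Int.abs_eq_natAbs]
    omega

theorem fam_val (f : ℤ → KK) (h0 : f 0 = 1) (hadd : ∀ m n, f m * f n = f (m + n)) (n : ℤ) :
    val (List.replicate n.natAbs (f n.sign, none)) = of (f n) := by
  have h := fam_take f h0 hadd n n.natAbs
  rw [List.take_of_length_le (by simp)] at h
  rw [h]
  congr 2
  simp only [pos]
  split_ifs <;> omega

theorem ray_take (e : ℤˣ) (n : ℤ) (i : ℕ) : val ((ray e n).take i) = of (dK e (pos n i)) :=
  fam_take (dK e) (dK_zero e) (dK_add e) n i

theorem ray_val (e : ℤˣ) (n : ℤ) : val (ray e n) = of (dK e n) :=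
  fam_val (dK e) (dK_zero e) (dK_add e) n

theorem wp_zero : wp 0 = 1 := ent_zero 1
theorem wp_add (m n : ℤ) : wp m * wp n = wp (m + n) := ent_add 1 m n

theorem st_take (n : ℤ) (i : ℕ) : val ((st n).take i) = of (wp (pos n i)) :=
  fam_take wp wp_zero wp_add n i

theorem st_val (n : ℤ) : val (st n) = of (wp n) :=
  fam_val wp wp_zero wp_add n

theorem seg_val (e : ℤˣ) (s : KK) (o : Option ℤˣ) : val (seg e s o) = of s * tO o := by
  rw [seg, val_append, ray_val, val_single, lv, ← mul_assoc, ← map_mul, dK_mul_rem]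

theorem pre_val (k₀ : KK) (R : List (ℤˣ × KK)) (o : Option ℤˣ) :
    val (pre k₀ R o) = V k₀ R * tO o := by
  induction R generalizing o with
  | nil =>
    have h := ent_mul_re 1 k₀
    rw [ent_one] at h
    rw [pre, val_append, st_val, seg_val, ← mul_assoc, ← map_mul, h, V]
  | cons p R ih =>
    obtain ⟨e, s⟩ := p
    rw [pre, val_append, ih, seg_val, V]
    simp only [tO, mul_assoc]

theorem sign_cases (n : ℤ) : n.sign = -1 ∨ n.sign = 0 ∨ n.sign = 1 := by
  rcases lt_trichotomy n 0 with h | h | h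
  · exact Or.inl (Int.sign_eq_neg_one_of_neg h)
  · exact Or.inr (Or.inl (by rw [h]; rfl))
  · exact Or.inr (Or.inr (Int.sign_eq_one_of_pos h))

theorem ray_BL (e : ℤˣ) (n : ℤ) : ∀ x ∈ ray e n, x ∈ BL := by
  intro x hx
  rw [ray, List.mem_replicate] at hx
  rw [hx.2]
  simp only [BL, Set.mem_ofPred_eq, dK, tr_x, tr_y, dx, dy]
  rcases sign_cases n with h | h | h <;> rw [h] <;> split_ifs <;> norm_num

theorem ent_BL (e : ℤˣ) (n : ℤ) : ∀ x ∈ List.replicate n.natAbs ((ent e n.sign, none) : Lt),
    x ∈ BL := by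
  intro x hx
  rw [List.mem_replicate] at hx
  rw [hx.2]
  simp only [BL, Set.mem_ofPred_eq, ent, wp, up]
  rcases sign_cases n with h | h | h <;> rw [h] <;> split_ifs <;> simp only [tr_x, tr_y] <;>
    norm_num

theorem st_BL (n : ℤ) : ∀ x ∈ st n, x ∈ BL := ent_BL 1 n

theorem seg_BL (e : ℤˣ) (s : KK) (o : Option ℤˣ) (hs : s ∈ Tr e) : ∀ x ∈ seg e s o, x ∈ BL := by
  intro x hx
  rcases List.mem_append.1 hx with hx | hx
  · exact ray_BL _ _ _ hx
  · rw [List.mem_singleton] at hx
    rw [hx]
    exact Fi_box (rem_Fi e s o hs).1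

theorem pre_BL (k₀ : KK) (R : List (ℤˣ × KK)) (hR : Good R) (o : Option ℤˣ) :
    ∀ x ∈ pre k₀ R o, x ∈ BL := by
  induction R generalizing o with
  | nil =>
    intro x hx
    rcases List.mem_append.1 hx with hx | hx
    · exact st_BL _ _ hx
    · exact seg_BL _ _ _ (re_mem _ _) _ hx
  | cons p R ih =>
    obtain ⟨e, s⟩ := p
    intro x hx
    rcases List.mem_append.1 hx with hx | hx
    · exact ih (good_tail hR) _ _ hx
    · exact seg_BL _ _ _ (hR.1 (e, s) List.mem_cons_self) _ hx

theorem WL_ent (e : ℤˣ) (q : ℤ) {c : ℕ} (hq : q ≤ c) (hq' : -q ≤ c) : WL c (of (ent e q)) := by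
  have h := WL_val (ent_BL e q)
  rw [fam_val (ent e) (ent_zero e) (ent_add e), List.length_replicate] at h
  exact h.mono (by omega)

theorem WL_dK (e : ℤˣ) (q : ℤ) {c : ℕ} (hq : q ≤ c) (hq' : -q ≤ c) : WL c (of (dK e q)) := by
  have h := WL_val (ray_BL e q)
  rw [ray_val, ray, List.length_replicate] at h
  exact h.mono (by omega)

/-- synchronous fellow travelling -/
def FT (c : ℕ) (l l' : List Lt) : Prop :=
  ∀ i : ℕ, WL c ((val (l.take i))⁻¹ * val (l'.take i))

theorem FT.mono {c d : ℕ} {l l' : List Lt} (h : FT c l l') (hcd : c ≤ d) : FT d l l' :=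
  fun i => (h i).mono hcd

theorem FT_refl (c : ℕ) (l : List Lt) : FT c l l := by
  intro i
  rw [inv_mul_cancel]
  exact WL_one.mono (Nat.zero_le _)

theorem FT.symm {c : ℕ} {l l' : List Lt} (h : FT c l l') : FT c l' l := by
  intro i
  have := (h i).inv
  rwa [mul_inv_rev, inv_inv] at this

theorem FT.trans {c d : ℕ} {l l' l'' : List Lt} (h : FT c l l') (h' : FT d l' l'') :
    FT (c + d) l l'' := by
  intro i
  have := (h i).mul (h' i)
  rwa [mul_assoc, mul_inv_cancel_left] at this

theorem FT_append {c : ℕ} {l l' : List Lt} (h : FT c l l') (m : List Lt) (hm : ∀ x ∈ m, x ∈ BL) :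
    FT (c + m.length) l (l' ++ m) := by
  intro i
  rw [List.take_append, val_append, ← mul_assoc]
  refine (h i).mul ?_
  refine (WL_val fun x hx => hm x (List.mem_of_mem_take hx)).mono ?_
  rw [List.length_take]
  omega

theorem st_FT (q j : ℤ) {c : ℕ} (hj : j ≤ c) (hj' : -j ≤ c) : FT c (st q) (st (q + j)) := by
  intro i
  rw [st_take, st_take, ← map_inv, ← map_mul]
  have h1 : (wp (pos q i))⁻¹ * wp (pos (q + j) i) = ent 1 (pos (q + j) i - pos q i) := by
    have := ent_inv 1 (pos q i)
    rw [ent_one] at this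
    rw [this, ent_one, wp_add, ent_one]
    congr 1
    ring
  rw [h1]
  have h2 := pos_diff (n := q + j) (n' := q) (j := i) (j' := i) (c := c) (c' := 0)
    (by omega) (by omega) (by omega) (by omega)
  exact WL_ent _ _ (by omega) (by omega)

/-- where the path is after `i` letters -/
theorem place {P : List Lt} (hP : ∀ x ∈ P, x ∈ BL) (e : ℤˣ) (n : ℤ) {x : Lt} (hx : x ∈ BL)
    (i c : ℕ) (hi : P.length ≤ i + c) :
    ∃ ε : GG, WL (c + 1) ε ∧
      val ((P ++ ray e n ++ [x]).take i) = val P * of (dK e (pos n ((i : ℤ) - P.length))) * ε := by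
  by_cases h1 : i ≤ P.length
  · refine ⟨(val (P.drop i))⁻¹, ?_, ?_⟩
    · have h2 := (WL_val (l := P.drop i) fun y hy => hP y (List.mem_of_mem_drop hy)).inv
      rw [List.length_drop] at h2
      exact h2.mono (by omega)
    · have h2 : pos n ((i : ℤ) - P.length) = 0 := by
        simp only [pos]; split_ifs <;> omega
      rw [h2, dK_zero, map_one, mul_one, eq_mul_inv_iff_mul_eq, List.append_assoc,
        List.take_append_of_le_length h1, ← val_append, List.take_append_drop]
  · by_cases h2 : i ≤ P.length + n.natAbs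
    · refine ⟨1, WL_one.mono (Nat.zero_le _), ?_⟩
      rw [List.take_append_of_le_length (by simp [ray]; omega), List.take_append,
        List.take_of_length_le (by omega), val_append, ray_take, mul_one]
      congr 4
      omega
    · refine ⟨lv x, (WL_lv hx).mono (by omega), ?_⟩
      rw [List.take_of_length_le (by simp [ray]; omega), val_append, val_append, val_single,
        ray_val]
      congr 4
      simp only [pos]
      split_ifs <;> omega

/-- comparison of two paths that enter the same plane -/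
theorem LC {P P' : List Lt} (hP : ∀ x ∈ P, x ∈ BL) (hP' : ∀ x ∈ P', x ∈ BL) (e : ℤˣ)
    (q n n' : ℤ) {x x' : Lt} (hx : x ∈ BL) (hx' : x' ∈ BL) (c1 c2 c3 c : ℕ) (hft : FT c P P')
    (h1 : P.length ≤ P'.length + c1) (h2 : P'.length ≤ P.length + c1)
    (hval : val P' = val P * of (ent e q)) (hq : q ≤ c2) (hq' : -q ≤ c2)
    (hn : n - n' ≤ c3) (hn' : n' - n ≤ c3) (hc : 3 * c1 + c2 + c3 + 2 ≤ c) :
    FT c (P ++ ray e n ++ [x]) (P' ++ ray e n' ++ [x']) := by
  intro i
  by_cases h : i ≤ P.length ∧ i ≤ P'.length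
  · rw [List.append_assoc, List.append_assoc, List.take_append_of_le_length h.1,
      List.take_append_of_le_length h.2]
    exact hft i
  · obtain ⟨ε, hε, e1⟩ := place hP e n hx i c1 (by omega)
    obtain ⟨ε', hε', e2⟩ := place hP' e n' hx' i c1 (by omega)
    rw [e1, e2, hval]
    set a := pos n ((i : ℤ) - P.length) with ha
    set b := pos n' ((i : ℤ) - P'.length) with hb
    have hab := pos_diff (n := n) (n' := n') (j := (i : ℤ) - P.length)
      (j' := (i : ℤ) - P'.length) (c := c3) (c' := c1) hn hn' (by omega) (by omega)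
    rw [← ha, ← hb] at hab
    have h3 : (val P * of (dK e a) * ε)⁻¹ * (val P * of (ent e q) * of (dK e b) * ε') =
        ε⁻¹ * (of (ent e q) * of (dK e (b - a))) * ε' := by
      have h4 : of (dK e a)⁻¹ * of (ent e q) * of (dK e b) =
          of (ent e q) * of (dK e (b - a)) := by
        rw [← map_mul, ← map_mul, ← map_mul]
        congr 1
        rw [dK_inv, ← ent_dK_comm, mul_assoc, dK_add]
        congr 2
        ring
      rw [← h4, mul_inv_rev, mul_inv_rev, ← map_inv]
      group
    rw [h3]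
    exact ((hε.inv.mul ((WL_ent e q hq hq').mul
      (WL_dK e (b - a) (c := c3 + c1) (by push_cast; omega) (by push_cast; omega)))).mul hε').mono
        (by omega)

end AutGeo.Cb
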